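import Pool.Agent.Lib_MP_fa2e48_si.Base

/-!
# Homomorphisms from the torsion-complete group to the direct sum kill small elements
-/

open Set

namespace Pool.Agent.Lib_MP_fa2e48_si

variable {p : ℕ} {D : Type} [AddCommGroup D]

/-- the element of `Tor` with the coordinates `y n`, `a n = true` -/
def tsum (y : ℕ → D) (hy : ∀ n, p ^ 2 • y n = 0) (hy0 : y 0 = 0) (a : ℕ → Bool) : Tor p D :=
  ⟨fun n => if a n then y n else 0, by
    refine ⟨fun n => ?_, 2, ?_⟩
    · rcases n with _ | n
      · simp [hy0]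
      · by_cases h : a (n + 1)
        · simp only [h, if_true]
          rw [show n + 1 + 1 = n + 2 by ring, pow_add, mul_smul, hy, smul_zero]
        · simp only [h]
          exact smul_zero _
    · funext n
      by_cases h : a n
      · simp [h, hy]
      · simp [h]⟩

/-- An element of order dividing `p ^ 2` with support in `(n + 1, ∞)` is divisible by
`p ^ (n + 1)` in `Tor`. -/
theorem div_of_support (hdiv : ∀ (m : ℕ) (z : D), ∃ w, p ^ m • w = z) (n : ℕ) (t : Tor p D)
    (h2 : p ^ 2 • (t : ℕ → D) = 0) (h : ∀ k ≤ n + 1, (t : ℕ → D) k = 0) :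
    ∃ t' : Tor p D, p ^ (n + 1) • t' = t := by
  classical
  choose w hw using fun k => hdiv (n + 1) ((t : ℕ → D) k)
  let s : ℕ → D := fun k => if k ≤ n + 1 then 0 else w k
  have hs : p ^ (n + 1) • s = t := by
    funext k
    show p ^ (n + 1) • s k = _
    by_cases hk : k ≤ n + 1
    · simp only [s, hk, if_true, smul_zero, h k hk]
    · simp only [s, hk, if_false, hw]
  have hs2 : p ^ (n + 3) • s = 0 := by
    rw [show n + 3 = 2 + (n + 1) by ring, pow_add, mul_smul, hs, h2]
  refine ⟨⟨s, fun k => ?_, n + 3, hs2⟩, Subtype.ext hs⟩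
  by_cases hk : k ≤ n + 1
  · simp only [s, hk, if_true, smul_zero]
  · obtain ⟨c, hc⟩ := Nat.exists_eq_add_of_le (show n + 3 ≤ k + 1 by omega)
    have := congrFun hs2 k
    rw [hc, add_comm, pow_add, mul_smul]
    show p ^ c • (p ^ (n + 3) • s k) = 0
    rw [show p ^ (n + 3) • s k = 0 from this, smul_zero]

theorem apply_eq (hdiv : ∀ (m : ℕ) (z : D), ∃ w, p ^ m • w = z) (u : Tor p D →+ Bas p D)
    (y : ℕ → D) (hy : ∀ n, p ^ 2 • y n = 0) (hy0 : y 0 = 0) (n : ℕ) (a a' : ℕ → Bool)
    (h : ∀ k < n + 2, a' k = a k) :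
    (u (tsum y hy hy0 a') : ℕ → D) n = (u (tsum y hy hy0 a) : ℕ → D) n := by
  obtain ⟨t', ht'⟩ := div_of_support hdiv n (tsum y hy hy0 a' - tsum y hy hy0 a) (by
    rw [AddSubgroup.coe_sub, smul_sub]
    have h1 : ∀ b, p ^ 2 • ((tsum y hy hy0 b : Tor p D) : ℕ → D) = 0 := by
      intro b
      funext k
      show p ^ 2 • (if b k then y k else 0) = 0
      split_ifs
      · exact hy k
      · exact smul_zero _
    rw [h1, h1, sub_zero]) (by
    intro k hk
    rw [AddSubgroup.coe_sub]
    show (if a' k then y k else 0) - (if a k then y k else 0) = 0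
    rw [h k (by omega), sub_self])
  have h1 : u (tsum y hy hy0 a') - u (tsum y hy hy0 a) = p ^ (n + 1) • u t' := by
    rw [← map_sub, ← ht', map_nsmul]
  have h2 := congrFun (congrArg Subtype.val h1) n
  have h3 : (u t').1 n = (u t' : ℕ → D) n := rfl
  have h4 : p ^ (n + 1) • (u t' : ℕ → D) n = 0 := (u t').2.1 n
  have h5 : (u (tsum y hy hy0 a') : ℕ → D) n - (u (tsum y hy hy0 a) : ℕ → D) n =
      p ^ (n + 1) • (u t' : ℕ → D) n := h2
  rw [h4] at h5
  exact sub_eq_zero.1 h5

/-- **Baire argument.** -/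
theorem exists_kill [Countable D] (hdiv : ∀ (m : ℕ) (z : D), ∃ w, p ^ m • w = z)
    (u : Tor p D →+ Bas p D) (y : ℕ → D) (hy : ∀ n, p ^ 2 • y n = 0) (hy0 : y 0 = 0) :
    ∃ m : ℕ, 1 ≤ m ∧ ∃ h : (Pi.single m (y m) : ℕ → D) ∈ Tor p D, u ⟨_, h⟩ = 0 := by
  classical
  have hcount : Countable (Bas p D) := by
    have h1 : (Bas p D : Set (ℕ → D)) ⊆ Set.range (fun f : ℕ →₀ D => (f : ℕ → D)) := by
      rintro x ⟨-, hx⟩
      exact ⟨Finsupp.ofSupportFinite x hx, rfl⟩
    exact (Set.countable_range _).mono h1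
  let C : Bas p D → Set (ℕ → Bool) := fun b => {a | u (tsum y hy hy0 a) = b}
  have hC : ∀ b, IsClosed (C b) := by
    intro b
    rw [← isOpen_compl_iff, isOpen_iff_forall_mem_open]
    intro a ha
    have ha' : u (tsum y hy hy0 a) ≠ b := ha
    obtain ⟨n, hn⟩ : ∃ n, (u (tsum y hy hy0 a) : ℕ → D) n ≠ (b : ℕ → D) n := by
      by_contra hc
      push Not at hc
      exact ha' (Subtype.ext (funext hc))
    refine ⟨PiNat.cylinder a (n + 2), ?_, PiNat.isOpen_cylinder _ a (n + 2),
      PiNat.self_mem_cylinder a (n + 2)⟩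
    intro a' ha'' hb
    rw [PiNat.mem_cylinder_iff] at ha''
    have h1 := apply_eq hdiv u y hy hy0 n a a' ha''
    have h2 : u (tsum y hy hy0 a') = b := hb
    rw [h2] at h1
    exact hn h1.symm
  obtain ⟨b, a, ha⟩ := nonempty_interior_of_iUnion_of_closed hC (by
    ext a
    simp only [mem_iUnion, mem_univ, iff_true]
    exact ⟨_, rfl⟩)
  obtain ⟨U, hU, hUo, haU⟩ := mem_interior.1 ha
  obtain ⟨I, v, hI, hv⟩ := isOpen_pi_iff.1 hUo a haU
  obtain ⟨m, hm⟩ : ∃ m, m ∉ insert 0 I := Infinite.exists_notMem_finset _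
  have hm1 : m ≠ 0 := fun h => hm (by simp [h])
  have hmI : m ∉ I := fun h => hm (by simp [h])
  have hmem : (Pi.single m (y m) : ℕ → D) ∈ Tor p D := by
    apply Bas_le_Tor
    apply single_mem_Bas
    obtain ⟨c, hc⟩ := Nat.exists_eq_add_of_le (show 2 ≤ m + 1 by omega)
    rw [hc, add_comm, pow_add, mul_smul, hy, smul_zero]
  refine ⟨m, by omega, hmem, ?_⟩
  let a1 : ℕ → Bool := Function.update a m true
  let a0 : ℕ → Bool := Function.update a m false
  have hk : ∀ c, u (tsum y hy hy0 (Function.update a m c)) = b := by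
    intro c
    have : Function.update a m c ∈ U := by
      apply hv
      intro i hi
      have hne : i ≠ m := fun h => hmI (h ▸ hi)
      rw [Function.update_of_ne hne]
      exact (hI i hi).2
    exact hU this
  have hdiff : (⟨_, hmem⟩ : Tor p D) = tsum y hy hy0 a1 - tsum y hy hy0 a0 := by
    apply Subtype.ext
    funext k
    rw [AddSubgroup.coe_sub]
    show (Pi.single m (y m) : ℕ → D) k = (if a1 k then y k else 0) - (if a0 k then y k else 0)
    by_cases hkm : k = m
    · subst hkm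
      simp [a1, a0]
    · simp [a1, a0, Function.update_of_ne hkm, Pi.single_eq_of_ne hkm]
  rw [hdiff, map_sub, hk, hk, sub_self]

end Pool.Agent.Lib_MP_fa2e48_si
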