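import Mathlib

/-!
# Two subgroups of `ℕ → D` and a functional on the socle

`D` is a divisible group (later `ℚ / ℤ`), `Tor` the torsion-complete group of all sequences `x` with
`p ^ (n + 1) • x n = 0` and bounded order, `Bas` its subgroup of the sequences with finite support.
-/

namespace Pool.Agent.Lib_MP_fa2e48_si

variable (p : ℕ) (D : Type) [AddCommGroup D]

/-- the torsion-complete group -/
def Tor : AddSubgroup (ℕ → D) where
  carrier := {x | (∀ n, p ^ (n + 1) • x n = 0) ∧ ∃ k, p ^ k • x = 0}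
  add_mem' := by
    rintro x y ⟨hx, k, hk⟩ ⟨hy, l, hl⟩
    refine ⟨fun n => by rw [Pi.add_apply, smul_add, hx, hy, add_zero], k + l, ?_⟩
    have h1 : p ^ (k + l) • x = 0 := by rw [pow_add, mul_comm, mul_smul, hk, smul_zero]
    have h2 : p ^ (k + l) • y = 0 := by rw [pow_add, mul_smul, hl, smul_zero]
    rw [smul_add, h1, h2, add_zero]
  zero_mem' := ⟨fun n => smul_zero _, 0, smul_zero _⟩
  neg_mem' := by
    rintro x ⟨hx, k, hk⟩
    exact ⟨fun n => by rw [Pi.neg_apply, smul_neg, hx, neg_zero], k, by rw [smul_neg, hk, neg_zero]⟩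

/-- the direct sum -/
def Bas : AddSubgroup (ℕ → D) where
  carrier := {x | (∀ n, p ^ (n + 1) • x n = 0) ∧ (Function.support x).Finite}
  add_mem' := by
    rintro x y ⟨hx, hx'⟩ ⟨hy, hy'⟩
    exact ⟨fun n => by rw [Pi.add_apply, smul_add, hx, hy, add_zero],
      (hx'.union hy').subset (Function.support_add x y)⟩
  zero_mem' := ⟨fun n => smul_zero _, by simp⟩
  neg_mem' := by
    rintro x ⟨hx, hx'⟩
    exact ⟨fun n => by rw [Pi.neg_apply, smul_neg, hx, neg_zero], by
      rw [Function.support_neg]; exact hx'⟩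

variable {p D}

theorem Bas_le_Tor : Bas p D ≤ Tor p D := by
  rintro x ⟨hx, hfin⟩
  refine ⟨hx, ?_⟩
  obtain ⟨N, hN⟩ := hfin.bddAbove
  refine ⟨N + 1, ?_⟩
  funext n
  by_cases h : x n = 0
  · simp [h]
  · have hn : n ≤ N := hN h
    obtain ⟨c, hc⟩ := Nat.exists_eq_add_of_le hn
    show p ^ (N + 1) • x n = 0
    rw [hc, show n + c + 1 = c + (n + 1) by ring, pow_add, mul_smul, hx, smul_zero]

theorem single_mem_Bas {n : ℕ} {d : D} (h : p ^ (n + 1) • d = 0) : (Pi.single n d : ℕ → D) ∈ Bas p D := by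
  refine ⟨fun m => ?_, (Set.finite_singleton n).subset ?_⟩
  · by_cases hm : m = n
    · subst hm; rw [Pi.single_eq_same]; exact h
    · rw [Pi.single_eq_of_ne hm, smul_zero]
  · intro m hm
    by_contra hc
    have hc' : m ≠ n := hc
    exact hm (by simp [Pi.single_eq_of_ne hc'])

theorem smul_single' (k n : ℕ) (d : D) : k • (Pi.single n d : ℕ → D) = Pi.single n (k • d) := by
  funext m
  by_cases hm : m = n
  · subst hm; simp
  · simp [Pi.single_eq_of_ne hm]

/-- a functional on the socle of `ℕ → D` extending the sum -/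
theorem exists_chi (hfin : {d : D | p • d = 0}.Finite) :
    ∃ χ : (ℕ → D) → D, (∀ x y, p • x = 0 → p • y = 0 → χ (x + y) = χ x + χ y) ∧
      (∀ x, p • x = 0 → p • χ x = 0) ∧ ∀ n d, p • d = 0 → χ (Pi.single n d) = d := by
  classical
  let U : Ultrafilter ℕ := Filter.hyperfilter ℕ
  have hex : ∀ x : ℕ → D, p • x = 0 → ∃ y : D, p • y = 0 ∧
      ∀ᶠ n in (U : Filter ℕ), ∑ k ∈ Finset.range (n + 1), x k = y := by
    intro x hx
    have hmem : ∀ n, p • ∑ k ∈ Finset.range (n + 1), x k = 0 := by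
      intro n
      rw [Finset.smul_sum]
      exact Finset.sum_eq_zero fun k _ => congrFun hx k
    have hu : (⋃ y ∈ {d : D | p • d = 0}, {n : ℕ | ∑ k ∈ Finset.range (n + 1), x k = y}) ∈ U := by
      have h0 : (⋃ y ∈ {d : D | p • d = 0}, {n : ℕ | ∑ k ∈ Finset.range (n + 1), x k = y}) =
          Set.univ := by
        ext n
        simp only [Set.mem_iUnion, Set.mem_univ, iff_true]
        exact ⟨_, hmem n, rfl⟩
      rw [h0]
      exact Filter.univ_mem
    obtain ⟨y, hy, hy'⟩ := (Ultrafilter.finite_biUnion_mem_iff hfin).1 hu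
    exact ⟨y, hy, hy'⟩
  let χ : (ℕ → D) → D := fun x => if h : p • x = 0 then (hex x h).choose else 0
  have hχ : ∀ x (h : p • x = 0), p • χ x = 0 ∧
      ∀ᶠ n in (U : Filter ℕ), ∑ k ∈ Finset.range (n + 1), x k = χ x := by
    intro x h
    have : χ x = (hex x h).choose := dif_pos h
    rw [this]
    exact (hex x h).choose_spec
  have huniq : ∀ (x : ℕ → D) (h : p • x = 0) (y : D),
      (∀ᶠ n in (U : Filter ℕ), ∑ k ∈ Finset.range (n + 1), x k = y) → χ x = y := by
    intro x h y hy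
    obtain ⟨n, h1, h2⟩ := ((hχ x h).2.and hy).exists
    exact h1.symm.trans h2
  refine ⟨χ, ?_, fun x h => (hχ x h).1, ?_⟩
  · intro x y hx hy
    apply huniq _ (by rw [smul_add, hx, hy, add_zero])
    filter_upwards [(hχ x hx).2, (hχ y hy).2] with n h1 h2
    rw [← h1, ← h2, ← Finset.sum_add_distrib]
    rfl
  · intro n d hd
    apply huniq _ (by rw [smul_single', hd, Pi.single_zero])
    have : ∀ᶠ m in (U : Filter ℕ), n ≤ m := by
      have h1 : (Set.Ici n) ∈ (Filter.cofinite : Filter ℕ) := by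
        rw [Nat.cofinite_eq_atTop]
        exact Filter.mem_atTop n
      exact Filter.hyperfilter_le_cofinite h1
    filter_upwards [this] with m hm
    rw [Finset.sum_pi_single']
    simp [Nat.lt_succ_of_le hm]

/-- what is used of the functional -/
structure IsChi (p : ℕ) {D : Type} [AddCommGroup D] (χ : (ℕ → D) → D) : Prop where
  add : ∀ x y, p • x = 0 → p • y = 0 → χ (x + y) = χ x + χ y
  tor : ∀ x, p • x = 0 → p • χ x = 0
  single : ∀ n d, p • d = 0 → χ (Pi.single n d) = d

variable {χ : (ℕ → D) → D}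

theorem IsChi.zero (h : IsChi p χ) : χ 0 = 0 := by
  have := h.add 0 0 (smul_zero _) (smul_zero _)
  simpa using this

theorem IsChi.neg (h : IsChi p χ) {x : ℕ → D} (hx : p • x = 0) : χ (-x) = -χ x := by
  have := h.add x (-x) hx (by rw [smul_neg, hx, neg_zero])
  rw [add_neg_cancel, h.zero] at this
  exact (neg_eq_of_add_eq_zero_right this.symm).symm

theorem IsChi.sub (h : IsChi p χ) {x y : ℕ → D} (hx : p • x = 0) (hy : p • y = 0) :
    χ (x - y) = χ x - χ y := by
  rw [sub_eq_add_neg, h.add x (-y) hx (by rw [smul_neg, hy, neg_zero]), h.neg hy, sub_eq_add_neg]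

/-- the kernel of the functional on the socle of `C` -/
def Ker (h : IsChi p χ) (C : AddSubgroup (ℕ → D)) : AddSubgroup C where
  carrier := {x | p • (x : ℕ → D) = 0 ∧ χ x = 0}
  add_mem' := by
    rintro x y ⟨hx, hx'⟩ ⟨hy, hy'⟩
    refine ⟨by rw [AddSubgroup.coe_add, smul_add, hx, hy, add_zero], ?_⟩
    rw [AddSubgroup.coe_add, h.add _ _ hx hy, hx', hy', add_zero]
  zero_mem' := ⟨smul_zero _, h.zero⟩
  neg_mem' := by
    rintro x ⟨hx, hx'⟩
    exact ⟨by rw [AddSubgroup.coe_neg, smul_neg, hx, neg_zero], by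
      rw [AddSubgroup.coe_neg, h.neg hx, hx', neg_zero]⟩

theorem mem_Ker (h : IsChi p χ) (C : AddSubgroup (ℕ → D)) (x : C) :
    x ∈ Ker h C ↔ p • (x : ℕ → D) = 0 ∧ χ x = 0 := Iff.rfl

end Pool.Agent.Lib_MP_fa2e48_si
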