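import Pool.Agent.Lib_MP_fa2e48_si.Baire
import Pool.Agent.Lib_MP_fa2e48_al.DSC
import Pool.Agent.Lib_MP_fa2e48_al.Summand

/-!
# The groups `C / Ker`, `Tor / Tor[p]` and their elements of infinite height
-/

open Pool.Agent.Lib_MP_fa2e48_al

namespace Pool.Agent.Lib_MP_fa2e48_si

variable {p : ℕ} {D : Type} [AddCommGroup D] {χ : (ℕ → D) → D}

theorem coe_nsmul' {C : AddSubgroup (ℕ → D)} (k : ℕ) (x : C) :
    ((k • x : C) : ℕ → D) = k • (x : ℕ → D) := rfl

/-- `single m d` as an element of `C` -/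
def sg {C : AddSubgroup (ℕ → D)} (hB : Bas p D ≤ C) (m : ℕ) (d : D) (hd : p ^ (m + 1) • d = 0) : C :=
  ⟨Pi.single m d, hB (single_mem_Bas hd)⟩

theorem mem_inf_iff (h : IsChi p χ) {C : AddSubgroup (ℕ → D)} (hB : Bas p D ≤ C)
    (hT : C ≤ Tor p D) (hdiv : ∀ (m : ℕ) (z : D), ∃ w, p ^ m • w = z) (x : C) :
    (QuotientAddGroup.mk x : C ⧸ Ker h C) ∈ infHeight p (C ⧸ Ker h C) ↔ p • (x : ℕ → D) = 0 := by
  constructor
  · intro hx
    funext n
    obtain ⟨b, hb⟩ := hx n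
    obtain ⟨b, rfl⟩ := QuotientAddGroup.mk_surjective b
    have h1 : (QuotientAddGroup.mk (p ^ n • b) : C ⧸ Ker h C) = QuotientAddGroup.mk x := hb
    rw [QuotientAddGroup.eq, mem_Ker] at h1
    have h2 := congrFun h1.1 n
    have h3 : p • (x : ℕ → D) n = p ^ (n + 1) • (b : ℕ → D) n := by
      have h4 : p • (-(p ^ n • (b : ℕ → D) n) + (x : ℕ → D) n) = 0 := h2
      rw [smul_add, smul_neg, neg_add_eq_zero] at h4
      rw [← h4, pow_succ', mul_smul]
    show p • (x : ℕ → D) n = 0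
    rw [h3]
    exact (hT b.2).1 n
  · intro hx m
    obtain ⟨w, hw⟩ := hdiv m (χ x)
    have hd : p • χ x = 0 := h.tor _ hx
    have hw1 : p ^ (m + 1) • w = 0 := by rw [pow_succ', mul_smul, hw, hd]
    refine ⟨QuotientAddGroup.mk (sg hB m w hw1), ?_⟩
    have e : p ^ m • (Pi.single m w : ℕ → D) = Pi.single m (χ x) := by rw [smul_single', hw]
    have hpe : p • (Pi.single m (χ x) : ℕ → D) = 0 := by rw [smul_single', hd, Pi.single_zero]
    show (QuotientAddGroup.mk (p ^ m • sg hB m w hw1) : C ⧸ Ker h C) = QuotientAddGroup.mk x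
    rw [QuotientAddGroup.eq, mem_Ker]
    have e2 : ((-(p ^ m • sg hB m w hw1) + x : C) : ℕ → D) = (x : ℕ → D) - Pi.single m (χ x) := by
      rw [AddSubgroup.coe_add, AddSubgroup.coe_neg, coe_nsmul', neg_add_eq_sub]
      show (x : ℕ → D) - p ^ m • (Pi.single m w : ℕ → D) = _
      rw [e]
    rw [e2, smul_sub, hx, hpe, sub_zero, h.sub hx hpe, h.single m _ hd, sub_self]
    exact ⟨rfl, rfl⟩

/-- the socle of `D` -/
def E (p : ℕ) (D : Type) [AddCommGroup D] : AddSubgroup D := (nsmulAddMonoidHom (α := D) p).ker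

theorem mem_E {d : D} : d ∈ E p D ↔ p • d = 0 := Iff.rfl

/-- the map from the socle of `D` -/
def jC (h : IsChi p χ) {C : AddSubgroup (ℕ → D)} (hB : Bas p D ≤ C) : E p D →+ C ⧸ Ker h C where
  toFun d := QuotientAddGroup.mk (sg hB 0 (d : D) (by rw [zero_add, pow_one]; exact d.2))
  map_zero' := by
    rw [QuotientAddGroup.eq_zero_iff, mem_Ker]
    have : ((sg hB 0 ((0 : E p D) : D) (by rw [zero_add, pow_one]; exact (0 : E p D).2) : C) : ℕ → D)
        = 0 := Pi.single_zero 0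
    rw [this]
    exact ⟨smul_zero _, h.zero⟩
  map_add' d e := by
    rw [← QuotientAddGroup.mk_add]
    congr 1
    apply Subtype.ext
    exact Pi.single_add (f := fun _ : ℕ => D) 0 (d : D) (e : D)

theorem jC_mem (h : IsChi p χ) {C : AddSubgroup (ℕ → D)} (hB : Bas p D ≤ C)
    (hT : C ≤ Tor p D) (hdiv : ∀ (m : ℕ) (z : D), ∃ w, p ^ m • w = z) (d : E p D) :
    jC h hB d ∈ infHeight p (C ⧸ Ker h C) := by
  refine (mem_inf_iff h hB hT hdiv _).2 ?_
  show p • (Pi.single 0 (d : D) : ℕ → D) = 0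
  rw [smul_single', show p • (d : D) = 0 from d.2, Pi.single_zero]

theorem jC_inj (h : IsChi p χ) {C : AddSubgroup (ℕ → D)} (hB : Bas p D ≤ C) :
    Function.Injective (jC h hB) := by
  rw [injective_iff_map_eq_zero]
  intro d hd
  have h1 : (QuotientAddGroup.mk (sg hB 0 (d : D) (by rw [zero_add, pow_one]; exact d.2)) :
      C ⧸ Ker h C) = 0 := hd
  rw [QuotientAddGroup.eq_zero_iff, mem_Ker] at h1
  have h2 := h1.2
  have h3 : χ (Pi.single 0 (d : D)) = 0 := h2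
  rw [h.single 0 _ d.2] at h3
  exact Subtype.ext h3

theorem jC_surj (h : IsChi p χ) {C : AddSubgroup (ℕ → D)} (hB : Bas p D ≤ C)
    (hT : C ≤ Tor p D) (hdiv : ∀ (m : ℕ) (z : D), ∃ w, p ^ m • w = z) (y : C ⧸ Ker h C)
    (hy : y ∈ infHeight p (C ⧸ Ker h C)) : ∃ d, jC h hB d = y := by
  obtain ⟨x, rfl⟩ := QuotientAddGroup.mk_surjective y
  have hx := (mem_inf_iff h hB hT hdiv x).1 hy
  have hd : p • χ x = 0 := h.tor _ hx
  refine ⟨⟨χ x, hd⟩, ?_⟩
  show (QuotientAddGroup.mk _ : C ⧸ Ker h C) = QuotientAddGroup.mk x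
  rw [QuotientAddGroup.eq, mem_Ker]
  have hpe : p • (Pi.single 0 (χ x) : ℕ → D) = 0 := by rw [smul_single', hd, Pi.single_zero]
  have e2 : ((-(sg hB 0 (χ x) (by rw [zero_add, pow_one]; exact hd)) + x : C) : ℕ → D) =
      (x : ℕ → D) - Pi.single 0 (χ x) := by
    rw [AddSubgroup.coe_add, AddSubgroup.coe_neg, neg_add_eq_sub]
    rfl
  rw [e2, smul_sub, hx, hpe, sub_zero, h.sub hx hpe, h.single 0 _ hd, sub_self]
  exact ⟨rfl, rfl⟩

/-- `p ^ ω (C / Ker)` is isomorphic to the socle of `D`. -/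
noncomputable def eC (h : IsChi p χ) {C : AddSubgroup (ℕ → D)} (hB : Bas p D ≤ C)
    (hT : C ≤ Tor p D) (hdiv : ∀ (m : ℕ) (z : D), ∃ w, p ^ m • w = z) :
    E p D ≃+ infHeight p (C ⧸ Ker h C) :=
  AddEquiv.ofBijective
    ((jC h hB).codRestrict (infHeight p (C ⧸ Ker h C)).toAddSubgroup (jC_mem h hB hT hdiv))
    ⟨fun a b hab => jC_inj h hB (congrArg Subtype.val hab), fun y => by
      obtain ⟨d, hd⟩ := jC_surj h hB hT hdiv y.1 y.2
      exact ⟨d, Subtype.ext hd⟩⟩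

/-- multiplication by `p` from `Bas / Ker` to `Bas` -/
def qB (h : IsChi p χ) : (Bas p D ⧸ Ker h (Bas p D)) →+ Bas p D :=
  QuotientAddGroup.lift _ (nsmulAddMonoidHom (α := Bas p D) p) (by
    intro x hx
    exact Subtype.ext hx.1)

/-- **Key.** Homomorphisms `Tor / Ker → Bas / Ker` kill the elements of infinite height. -/
theorem hom_kills [Countable D] (h : IsChi p χ)
    (hdiv : ∀ (m : ℕ) (z : D), ∃ w, p ^ m • w = z)
    (g : (Tor p D ⧸ Ker h (Tor p D)) →+ (Bas p D ⧸ Ker h (Bas p D)))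
    (x : Tor p D ⧸ Ker h (Tor p D)) (hx : x ∈ infHeight p (Tor p D ⧸ Ker h (Tor p D))) :
    g x = 0 := by
  obtain ⟨v, rfl⟩ := QuotientAddGroup.mk_surjective x
  have hv := (mem_inf_iff h Bas_le_Tor le_rfl hdiv v).1 hx
  have hd : p • χ v = 0 := h.tor _ hv
  obtain ⟨w, hw⟩ := hdiv 1 (χ v)
  rw [pow_one] at hw
  let y : ℕ → D := fun n => if n = 0 then 0 else w
  have hy : ∀ n, p ^ 2 • y n = 0 := by
    intro n
    by_cases hn : n = 0
    · simp [y, hn]
    · simp only [y, hn, if_false]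
      rw [sq, mul_smul, hw, hd]
  obtain ⟨m, hm1, hmem, hm⟩ := exists_kill hdiv
    ((qB h).comp (g.comp (QuotientAddGroup.mk' (Ker h (Tor p D))))) y hy (by simp [y])
  have hym : y m = w := by
    have : m ≠ 0 := by omega
    simp [y, this]
  obtain ⟨b, hb⟩ := QuotientAddGroup.mk_surjective (g (QuotientAddGroup.mk ⟨_, hmem⟩))
  have h1 : p • b = 0 := by
    have h2 : qB h (g (QuotientAddGroup.mk ⟨_, hmem⟩)) = 0 := hm
    rw [← hb] at h2
    exact h2
  have h3 : g (QuotientAddGroup.mk (p • ⟨_, hmem⟩ : Tor p D)) = 0 := by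
    have h4 : (QuotientAddGroup.mk (p • ⟨_, hmem⟩ : Tor p D) : Tor p D ⧸ Ker h (Tor p D)) =
        p • QuotientAddGroup.mk ⟨_, hmem⟩ := rfl
    rw [h4, map_nsmul, ← hb]
    have h5 : p • (QuotientAddGroup.mk b : Bas p D ⧸ Ker h (Bas p D)) = QuotientAddGroup.mk (p • b) :=
      rfl
    rw [h5, h1]
    rfl
  have h6 : (QuotientAddGroup.mk (p • ⟨_, hmem⟩ : Tor p D) : Tor p D ⧸ Ker h (Tor p D)) =
      QuotientAddGroup.mk v := by
    rw [QuotientAddGroup.eq, mem_Ker]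
    have e : p • (Pi.single m (y m) : ℕ → D) = Pi.single m (χ v) := by
      rw [smul_single', hym, hw]
    have hpe : p • (Pi.single m (χ v) : ℕ → D) = 0 := by rw [smul_single', hd, Pi.single_zero]
    have e2 : ((-(p • (⟨_, hmem⟩ : Tor p D)) + v : Tor p D) : ℕ → D) =
        (v : ℕ → D) - Pi.single m (χ v) := by
      rw [AddSubgroup.coe_add, AddSubgroup.coe_neg, coe_nsmul', neg_add_eq_sub]
      show (v : ℕ → D) - p • (Pi.single m (y m) : ℕ → D) = _
      rw [e]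
    rw [e2, smul_sub, hv, hpe, sub_zero, h.sub hv hpe, h.single m _ hd, sub_self]
    exact ⟨rfl, rfl⟩
  rw [← h6]
  exact h3

/-- the socle of `Tor` -/
def Soc (p : ℕ) (D : Type) [AddCommGroup D] : AddSubgroup (Tor p D) :=
  (nsmulAddMonoidHom (α := Tor p D) p).ker

theorem mem_Soc {x : Tor p D} : x ∈ Soc p D ↔ p • (x : ℕ → D) = 0 :=
  ⟨fun h => congrArg Subtype.val h, fun h => Subtype.ext h⟩

theorem inf_Soc (x : Tor p D ⧸ Soc p D) (hx : x ∈ infHeight p (Tor p D ⧸ Soc p D)) : x = 0 := by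
  obtain ⟨x, rfl⟩ := QuotientAddGroup.mk_surjective x
  rw [QuotientAddGroup.eq_zero_iff, mem_Soc]
  funext n
  obtain ⟨b, hb⟩ := hx n
  obtain ⟨b, rfl⟩ := QuotientAddGroup.mk_surjective b
  have h1 : (QuotientAddGroup.mk (p ^ n • b) : Tor p D ⧸ Soc p D) = QuotientAddGroup.mk x := hb
  rw [QuotientAddGroup.eq, mem_Soc] at h1
  have h2 := congrFun h1 n
  have h4 : p • (-(p ^ n • (b : ℕ → D) n) + (x : ℕ → D) n) = 0 := h2
  rw [smul_add, smul_neg, neg_add_eq_zero] at h4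
  show p • (x : ℕ → D) n = 0
  rw [← h4, ← mul_smul, ← pow_succ']
  exact b.2.1 n

/-- a homomorphism `Tor / Tor[p] → Bas / Ker` -/
def toBas (h : IsChi p χ) (n : ℕ) : (Tor p D ⧸ Soc p D) →+ (Bas p D ⧸ Ker h (Bas p D)) :=
  QuotientAddGroup.lift _
    ((QuotientAddGroup.mk' (Ker h (Bas p D))).comp
      { toFun := fun t => sg le_rfl n (p • (t : ℕ → D) n) (by
          rw [smul_comm, t.2.1 n, smul_zero])
        map_zero' := by
          apply Subtype.ext
          show (Pi.single n (p • (0 : D)) : ℕ → D) = 0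
          rw [smul_zero, Pi.single_zero]
        map_add' := fun s t => by
          apply Subtype.ext
          show (Pi.single n (p • ((s : ℕ → D) n + (t : ℕ → D) n)) : ℕ → D) =
            Pi.single n (p • (s : ℕ → D) n) + Pi.single n (p • (t : ℕ → D) n)
          rw [smul_add, Pi.single_add] })
    (by
      intro x hx
      have h1 : p • (x : ℕ → D) n = 0 := congrFun (mem_Soc.1 hx) n
      show (QuotientAddGroup.mk _ : Bas p D ⧸ Ker h (Bas p D)) = 0
      rw [QuotientAddGroup.eq_zero_iff, mem_Ker]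
      have : ((sg le_rfl n (p • (x : ℕ → D) n) (by rw [smul_comm, x.2.1 n, smul_zero]) : Bas p D) :
          ℕ → D) = 0 := by
        show (Pi.single n (p • (x : ℕ → D) n) : ℕ → D) = 0
        rw [h1, Pi.single_zero]
      show p • ((sg le_rfl n (p • (x : ℕ → D) n) (by rw [smul_comm, x.2.1 n, smul_zero]) : Bas p D) :
          ℕ → D) = 0 ∧ χ ((sg le_rfl n (p • (x : ℕ → D) n) (by
            rw [smul_comm, x.2.1 n, smul_zero]) : Bas p D) : ℕ → D) = 0
      rw [this]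
      exact ⟨smul_zero _, h.zero⟩)

theorem toBas_ne (h : IsChi p χ) (x : Tor p D ⧸ Soc p D) (hx : x ≠ 0) : ∃ n, toBas h n x ≠ 0 := by
  obtain ⟨x, rfl⟩ := QuotientAddGroup.mk_surjective x
  by_contra hc
  push Not at hc
  apply hx
  rw [QuotientAddGroup.eq_zero_iff, mem_Soc]
  funext n
  have h1 : (QuotientAddGroup.mk (sg le_rfl n (p • (x : ℕ → D) n) (by
      rw [smul_comm, x.2.1 n, smul_zero]) : Bas p D) : Bas p D ⧸ Ker h (Bas p D)) = 0 := hc n
  rw [QuotientAddGroup.eq_zero_iff, mem_Ker] at h1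
  have h2 : p • (Pi.single n (p • (x : ℕ → D) n) : ℕ → D) = 0 := h1.1
  have h3 : χ (Pi.single n (p • (x : ℕ → D) n)) = 0 := h1.2
  rw [smul_single'] at h2
  have h4 : p • (p • (x : ℕ → D) n) = 0 := by
    have := congrFun h2 n
    simpa using this
  rw [h.single n _ h4] at h3
  exact h3

end Pool.Agent.Lib_MP_fa2e48_si
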