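import Pool.Agent.Lib_MP_fa2e48_si.Groups

/-!
# The two groups
-/

open Pool.Agent.Lib_MP_fa2e48_al

namespace Pool.Agent.Lib_MP_fa2e48_si

variable {p : ℕ}

section general
variable {G H K : Type} [AddCommGroup G] [AddCommGroup H] [AddCommGroup K]

theorem infHeight_map (φ : G →+ H) {g : G} (hg : g ∈ infHeight p G) : φ g ∈ infHeight p H := by
  intro n
  obtain ⟨b, hb⟩ := hg n
  exact ⟨φ b, by rw [← map_nsmul, hb]⟩

theorem mem_inf_prod {x : G × H} : x ∈ infHeight p (G × H) ↔ x.1 ∈ infHeight p G ∧ x.2 ∈ infHeight p H := by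
  constructor
  · intro hx
    exact ⟨infHeight_map (AddMonoidHom.fst G H) hx, infHeight_map (AddMonoidHom.snd G H) hx⟩
  · rintro ⟨h1, h2⟩ n
    obtain ⟨a, ha⟩ := h1 n
    obtain ⟨b, hb⟩ := h2 n
    exact ⟨(a, b), Prod.ext ha hb⟩

theorem mem_inf_finsupp {z : ℕ →₀ G} : z ∈ infHeight p (ℕ →₀ G) ↔ ∀ i, z i ∈ infHeight p G := by
  classical
  constructor
  · intro hz i
    exact infHeight_map (Finsupp.applyAddHom i) hz
  · intro hz n
    choose b hb using fun i => hz i n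
    refine ⟨Finsupp.onFinset z.support (fun i => if z i = 0 then 0 else b i) (by
      intro i hi
      by_contra hc
      rw [Finsupp.notMem_support_iff] at hc
      exact hi (by simp [hc])), ?_⟩
    ext i
    rw [Finsupp.smul_apply, Finsupp.onFinset_apply]
    by_cases hi : z i = 0
    · simp [hi]
    · simp [hi, hb]

/-- `p ^ ω` of a countable direct sum -/
noncomputable def infFinsupp (e : K ≃+ infHeight p G) : (ℕ →₀ K) ≃+ infHeight p (ℕ →₀ G) :=
  AddEquiv.ofBijective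
    ((Finsupp.mapRange.addMonoidHom
      ((infHeight p G).toAddSubgroup.subtype.comp e.toAddMonoidHom)).codRestrict
        (infHeight p (ℕ →₀ G)).toAddSubgroup (fun z => by
          refine mem_inf_finsupp.2 fun i => ?_
          rw [Finsupp.mapRange.addMonoidHom_apply, Finsupp.mapRange_apply]
          exact (e (z i)).2))
    ⟨by
      intro a b hab
      have h1 := congrArg Subtype.val hab
      ext i
      have h2 := DFunLike.congr_fun h1 i
      have h3 : ((e (a i) : infHeight p G) : G) = ((e (b i) : infHeight p G) : G) := h2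
      exact e.injective (Subtype.ext h3), by
      intro z
      have hz := fun i => mem_inf_finsupp.1 z.2 i
      refine ⟨Finsupp.onFinset (z : ℕ →₀ G).support (fun i => e.symm ⟨(z : ℕ →₀ G) i, hz i⟩) (by
        intro i hi
        by_contra hc
        rw [Finsupp.notMem_support_iff] at hc
        apply hi
        have : (⟨(z : ℕ →₀ G) i, hz i⟩ : infHeight p G) = 0 := Subtype.ext hc
        rw [this, map_zero]), ?_⟩
      apply Subtype.ext
      ext i
      show ((e (Finsupp.onFinset _ _ _ i) : infHeight p G) : G) = (z : ℕ →₀ G) i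
      rw [Finsupp.onFinset_apply, AddEquiv.apply_symm_apply]⟩

/-- `K × K^(ℕ) ≃ K^(ℕ)` -/
noncomputable def shiftEquiv (K : Type) [AddCommGroup K] : K × (ℕ →₀ K) ≃+ (ℕ →₀ K) :=
  AddEquiv.ofBijective
    ((Finsupp.singleAddHom 0).coprod (Finsupp.mapDomain.addMonoidHom Nat.succ) :
      K × (ℕ →₀ K) →+ (ℕ →₀ K))
    ⟨by
      rw [injective_iff_map_eq_zero]
      rintro ⟨k, z⟩ h
      have h0 := DFunLike.congr_fun h 0
      have h1 := fun i => DFunLike.congr_fun h (Nat.succ i)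
      simp only [AddMonoidHom.coprod_apply, Finsupp.singleAddHom_apply,
        Finsupp.mapDomain.addMonoidHom_apply, Finsupp.add_apply, Finsupp.coe_zero,
        Pi.zero_apply, Finsupp.single_eq_same] at h0 h1
      rw [Finsupp.mapDomain_of_notMem_range _ _ (by simp), add_zero] at h0
      have hz : z = 0 := by
        ext i
        have := h1 i
        rw [Finsupp.single_eq_of_ne (Nat.succ_ne_zero i), zero_add,
          Finsupp.mapDomain_apply Nat.succ_injective] at this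
        exact this
      rw [h0, hz]
      rfl, by
      intro w
      refine ⟨(w 0, w.comapDomain Nat.succ Nat.succ_injective.injOn), ?_⟩
      ext i
      simp only [AddMonoidHom.coprod_apply, Finsupp.singleAddHom_apply,
        Finsupp.mapDomain.addMonoidHom_apply, Finsupp.add_apply]
      rcases i with _ | i
      · rw [Finsupp.single_eq_same, Finsupp.mapDomain_of_notMem_range _ _ (by simp), add_zero]
      · rw [Finsupp.single_eq_of_ne (Nat.succ_ne_zero i), zero_add,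
          show i + 1 = Nat.succ i from rfl, Finsupp.mapDomain_apply Nat.succ_injective]
        rfl⟩

end general

section assemble
variable {D : Type} [AddCommGroup D] {χ : (ℕ → D) → D}

theorem tor_of_tor {G : Type} [AddCommGroup G] (hG : ∀ g : G, ∃ k : ℕ, p ^ k • g = 0)
    (N : AddSubgroup G) (x : G ⧸ N) : ∃ k : ℕ, p ^ k • x = 0 := by
  obtain ⟨g, rfl⟩ := QuotientAddGroup.mk_surjective x
  obtain ⟨k, hk⟩ := hG g
  refine ⟨k, ?_⟩
  have : (QuotientAddGroup.mk (p ^ k • g) : G ⧸ N) = p ^ k • QuotientAddGroup.mk g := rfl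
  rw [← this, hk]
  rfl

theorem tor_finsupp {G : Type} [AddCommGroup G] (hG : ∀ g : G, ∃ k : ℕ, p ^ k • g = 0)
    (z : ℕ →₀ G) : ∃ k : ℕ, p ^ k • z = 0 := by
  induction z using Finsupp.induction_linear with
  | zero => exact ⟨0, smul_zero _⟩
  | add x y hx hy =>
    obtain ⟨k, hk⟩ := hx
    obtain ⟨l, hl⟩ := hy
    refine ⟨k + l, ?_⟩
    have h1 : p ^ (k + l) • x = 0 := by rw [pow_add, mul_comm, mul_smul, hk, smul_zero]
    have h2 : p ^ (k + l) • y = 0 := by rw [pow_add, mul_smul, hl, smul_zero]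
    rw [smul_add, h1, h2, add_zero]
  | single i g =>
    obtain ⟨k, hk⟩ := hG g
    exact ⟨k, by rw [Finsupp.smul_single, hk, Finsupp.single_zero]⟩

theorem tor_prod {G H : Type} [AddCommGroup G] [AddCommGroup H] (hG : ∀ g : G, ∃ k : ℕ, p ^ k • g = 0)
    (hH : ∀ g : H, ∃ k : ℕ, p ^ k • g = 0) (x : G × H) : ∃ k : ℕ, p ^ k • x = 0 := by
  obtain ⟨x, y⟩ := x
  obtain ⟨k, hk⟩ := hG x
  obtain ⟨l, hl⟩ := hH y
  refine ⟨k + l, ?_⟩
  have h1 : p ^ (k + l) • x = 0 := by rw [pow_add, mul_comm, mul_smul, hk, smul_zero]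
  have h2 : p ^ (k + l) • y = 0 := by rw [pow_add, mul_smul, hl, smul_zero]
  exact Prod.ext h1 h2

theorem tor_Tor (g : Tor p D) : ∃ k : ℕ, p ^ k • g = 0 := by
  obtain ⟨k, hk⟩ := g.2.2
  exact ⟨k, Subtype.ext hk⟩

theorem tor_Bas (g : Bas p D) : ∃ k : ℕ, p ^ k • g = 0 := by
  obtain ⟨k, hk⟩ := (Bas_le_Tor g.2).2
  exact ⟨k, Subtype.ext hk⟩

theorem p_smul_inf (h : IsChi p χ) {C : AddSubgroup (ℕ → D)} (hB : Bas p D ≤ C)
    (hT : C ≤ Tor p D) (hdiv : ∀ (m : ℕ) (z : D), ∃ w, p ^ m • w = z) (x : C ⧸ Ker h C)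
    (hx : x ∈ infHeight p (C ⧸ Ker h C)) : p • x = 0 := by
  obtain ⟨v, rfl⟩ := QuotientAddGroup.mk_surjective x
  have hv := (mem_inf_iff h hB hT hdiv v).1 hx
  have h1 : p • v = 0 := Subtype.ext hv
  have : (QuotientAddGroup.mk (p • v) : C ⧸ Ker h C) = p • QuotientAddGroup.mk v := rfl
  rw [← this, h1]
  rfl

/-- the map `Tor / Ker → Tor / Tor[p]` -/
def rho (h : IsChi p χ) : (Tor p D ⧸ Ker h (Tor p D)) →+ (Tor p D ⧸ Soc p D) :=
  QuotientAddGroup.map _ _ (AddMonoidHom.id _) (fun _ hx => mem_Soc.2 hx.1)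

theorem rho_eq_zero (h : IsChi p χ) (hdiv : ∀ (m : ℕ) (z : D), ∃ w, p ^ m • w = z)
    (x : Tor p D ⧸ Ker h (Tor p D)) :
    rho h x = 0 ↔ x ∈ infHeight p (Tor p D ⧸ Ker h (Tor p D)) := by
  obtain ⟨v, rfl⟩ := QuotientAddGroup.mk_surjective x
  rw [mem_inf_iff h Bas_le_Tor le_rfl hdiv]
  have : rho h (QuotientAddGroup.mk v) = QuotientAddGroup.mk v := rfl
  rw [this, QuotientAddGroup.eq_zero_iff, mem_Soc]

theorem rho_surj (h : IsChi p χ) : Function.Surjective (rho h) := by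
  intro x
  obtain ⟨v, rfl⟩ := QuotientAddGroup.mk_surjective x
  exact ⟨QuotientAddGroup.mk v, rfl⟩

/-- `A` -/
abbrev GA (h : IsChi p χ) : Type := (Tor p D ⧸ Soc p D) × (ℕ →₀ (Bas p D ⧸ Ker h (Bas p D)))

/-- `A'` -/
abbrev GB (h : IsChi p χ) : Type :=
  (Tor p D ⧸ Ker h (Tor p D)) × (ℕ →₀ (Bas p D ⧸ Ker h (Bas p D)))

theorem slender_GA (h : IsChi p χ) : IsSlender (AddMonoid.End (GA h)) (GA h) := by
  classical
  refine slender_of_retract (Q := Bas p D ⧸ Ker h (Bas p D)) (AddMonoidHom.inr _ _)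
    (AddMonoidHom.snd _ _) (fun x => rfl) ?_
  rintro ⟨x, z⟩ hxz
  by_cases hx : x = 0
  · have hz : z ≠ 0 := by
      rintro rfl
      exact hxz (by rw [hx]; rfl)
    obtain ⟨i, hi⟩ := Finsupp.ne_iff.1 hz
    exact ⟨(Finsupp.applyAddHom i).comp (AddMonoidHom.snd _ _), hi⟩
  · obtain ⟨n, hn⟩ := toBas_ne h x hx
    exact ⟨(toBas h n).comp (AddMonoidHom.fst _ _), hn⟩

theorem not_slender_GB [Countable D] (h : IsChi p χ)
    (hdiv : ∀ (m : ℕ) (z : D), ∃ w, p ^ m • w = z) (hfin : {d : D | p • d = 0}.Finite)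
    (s : D) (hs0 : s ≠ 0) (hs : p • s = 0) : ¬ IsSlender (AddMonoid.End (GB h)) (GB h) := by
  classical
  let F : AddSubgroup (GB h) :=
    (infHeight p (Tor p D ⧸ Ker h (Tor p D))).toAddSubgroup.map (AddMonoidHom.inl _ _)
  have hE : Finite (E p D) := hfin
  have hI : Finite (infHeight p (Tor p D ⧸ Ker h (Tor p D))) :=
    Finite.of_equiv _ (eC h Bas_le_Tor le_rfl hdiv).toEquiv
  apply not_slender_of_finite_fi F
  · rintro φ _ ⟨x, hx, rfl⟩
    have hx' : x ∈ infHeight p (Tor p D ⧸ Ker h (Tor p D)) := hx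
    have h1 : (AddMonoidHom.inl _ _ x : GB h) ∈ infHeight p (GB h) :=
      infHeight_map (p := p) (H := GB h) (AddMonoidHom.inl _ _) hx'
    have h2 : φ (AddMonoidHom.inl _ _ x) ∈ infHeight p (GB h) := infHeight_map φ h1
    have h3 := (mem_inf_prod.1 h2).1
    have h4 : (φ (AddMonoidHom.inl _ _ x)).2 = 0 := by
      ext i
      exact hom_kills h hdiv ((Finsupp.applyAddHom i).comp ((AddMonoidHom.snd _ _).comp
        (AddMonoidHom.comp φ (AddMonoidHom.inl _ _)))) x hx'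
    exact ⟨(φ (AddMonoidHom.inl _ _ x)).1, h3, Prod.ext rfl h4.symm⟩
  · exact (Set.toFinite (infHeight p (Tor p D ⧸ Ker h (Tor p D)) :
      Set (Tor p D ⧸ Ker h (Tor p D)))).image _
  · intro hF
    have h1 : (AddMonoidHom.inl _ _ (jC h Bas_le_Tor ⟨s, hs⟩) : GB h) ∈ F :=
      ⟨_, jC_mem h Bas_le_Tor le_rfl hdiv ⟨s, hs⟩, rfl⟩
    rw [hF, AddSubgroup.mem_bot] at h1
    have h2 : jC h Bas_le_Tor ⟨s, hs⟩ = 0 := congrArg Prod.fst h1
    have h3 := jC_inj h Bas_le_Tor (h2.trans (map_zero _).symm)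
    exact hs0 (congrArg Subtype.val h3)

theorem mem_inf_GA (h : IsChi p χ) (a : GA h) : a ∈ infHeight p (GA h) ↔
    a.1 = 0 ∧ a.2 ∈ infHeight p (ℕ →₀ (Bas p D ⧸ Ker h (Bas p D))) := by
  rw [mem_inf_prod]
  constructor
  · rintro ⟨h1, h2⟩
    exact ⟨inf_Soc _ h1, h2⟩
  · rintro ⟨h1, h2⟩
    exact ⟨by rw [h1]; exact zero_mem _, h2⟩

noncomputable def infGA (h : IsChi p χ) :
    infHeight p (GA h) ≃+ infHeight p (ℕ →₀ (Bas p D ⧸ Ker h (Bas p D))) where
  toFun a := ⟨(a : GA h).2, ((mem_inf_GA h a).1 a.2).2⟩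
  invFun z := ⟨(0, (z : ℕ →₀ _)), (mem_inf_GA h _).2 ⟨rfl, z.2⟩⟩
  left_inv a := Subtype.ext (Prod.ext ((mem_inf_GA h a).1 a.2).1.symm rfl)
  right_inv _ := rfl
  map_add' _ _ := rfl

noncomputable def infGB (h : IsChi p χ) :
    infHeight p (GB h) ≃+ infHeight p (Tor p D ⧸ Ker h (Tor p D)) ×
      infHeight p (ℕ →₀ (Bas p D ⧸ Ker h (Bas p D))) where
  toFun a := (⟨(a : GB h).1, (mem_inf_prod.1 a.2).1⟩, ⟨(a : GB h).2, (mem_inf_prod.1 a.2).2⟩)
  invFun z := ⟨((z.1 : _), (z.2 : ℕ →₀ _)), mem_inf_prod.2 ⟨z.1.2, z.2.2⟩⟩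
  left_inv _ := rfl
  right_inv _ := rfl
  map_add' _ _ := rfl

theorem assemble [Countable D] (h : IsChi p χ)
    (hdiv : ∀ (m : ℕ) (z : D), ∃ w, p ^ m • w = z) (hfin : {d : D | p • d = 0}.Finite)
    (s : D) (hs0 : s ≠ 0) (hs : p • s = 0) :
      (∀ a : GA h, ∃ k : ℕ, p ^ k • a = 0) ∧ (∀ a : GB h, ∃ k : ℕ, p ^ k • a = 0) ∧
      (∀ a ∈ infHeight p (GA h), p • a = 0) ∧ (∀ a ∈ infHeight p (GB h), p • a = 0) ∧
      (infHeight p (GA h) : Set (GA h)).Infinite ∧
      Nonempty (infHeight p (GA h) ≃+ infHeight p (GB h)) ∧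
      Nonempty ((GA h ⧸ (infHeight p (GA h)).toAddSubgroup) ≃+
        (GB h ⧸ (infHeight p (GB h)).toAddSubgroup)) ∧
      IsSlender (AddMonoid.End (GA h)) (GA h) ∧ ¬ IsSlender (AddMonoid.End (GB h)) (GB h) := by
  classical
  have hz : ∀ z ∈ infHeight p (ℕ →₀ (Bas p D ⧸ Ker h (Bas p D))), p • z = 0 := by
    intro z hz
    ext i
    exact p_smul_inf h le_rfl Bas_le_Tor hdiv _ (mem_inf_finsupp.1 hz i)
  have e1 := infFinsupp (eC h (C := Bas p D) le_rfl Bas_le_Tor hdiv)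
  have e2 := eC h (C := Tor p D) Bas_le_Tor le_rfl hdiv
  refine ⟨tor_prod (tor_of_tor tor_Tor _) (tor_finsupp (tor_of_tor tor_Bas _)),
    tor_prod (tor_of_tor tor_Tor _) (tor_finsupp (tor_of_tor tor_Bas _)), ?_, ?_, ?_, ?_, ?_,
    slender_GA h, not_slender_GB h hdiv hfin s hs0 hs⟩
  · intro a ha
    obtain ⟨h1, h2⟩ := (mem_inf_GA h a).1 ha
    refine Prod.ext ?_ (hz _ h2)
    show p • a.1 = 0
    rw [h1, smul_zero]
  · intro a ha
    obtain ⟨h1, h2⟩ := mem_inf_prod.1 ha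
    exact Prod.ext (p_smul_inf h Bas_le_Tor le_rfl hdiv _ h1) (hz _ h2)
  · rw [← Set.infinite_coe_iff]
    have : Nontrivial (E p D) := ⟨⟨⟨s, hs⟩, 0, fun hc => hs0 (congrArg Subtype.val hc)⟩⟩
    have : Infinite (ℕ →₀ E p D) := inferInstance
    exact Infinite.of_injective _ (e1.trans (infGA h).symm).injective
  · exact ⟨(infGA h).trans (e1.symm.trans ((shiftEquiv _).symm.trans
      ((AddEquiv.prodCongr e2 e1).trans (infGB h).symm)))⟩
  · let ψ : GB h →+ (GA h ⧸ (infHeight p (GA h)).toAddSubgroup) :=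
      (QuotientAddGroup.mk' _).comp ((rho h).prodMap (AddMonoidHom.id _))
    have hψ : Function.Surjective ψ := by
      intro y
      obtain ⟨⟨x, z⟩, rfl⟩ := QuotientAddGroup.mk_surjective y
      obtain ⟨x', rfl⟩ := rho_surj h x
      exact ⟨(x', z), rfl⟩
    have hker : ψ.ker = (infHeight p (GB h)).toAddSubgroup := by
      ext a
      rw [AddMonoidHom.mem_ker]
      have h1 : ψ a = QuotientAddGroup.mk (rho h a.1, a.2) := rfl
      rw [h1, QuotientAddGroup.eq_zero_iff]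
      show (rho h a.1, a.2) ∈ infHeight p (GA h) ↔ a ∈ infHeight p (GB h)
      rw [mem_inf_GA, mem_inf_prod]
      show rho h a.1 = 0 ∧ _ ↔ _
      rw [rho_eq_zero h hdiv]
    exact ⟨((QuotientAddGroup.quotientAddEquivOfEq hker.symm).trans
      (QuotientAddGroup.quotientKerEquivOfSurjective ψ hψ)).symm⟩

end assemble

/-- **Theorem.** -/
theorem main (p : ℕ) [hp : Fact p.Prime] :
    ∃ (A A' : Type) (_ : AddCommGroup A) (_ : AddCommGroup A'),
      (∀ a : A, ∃ k : ℕ, p ^ k • a = 0) ∧ (∀ a : A', ∃ k : ℕ, p ^ k • a = 0) ∧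
      (∀ a ∈ infHeight p A, p • a = 0) ∧ (∀ a ∈ infHeight p A', p • a = 0) ∧
      (infHeight p A : Set A).Infinite ∧
      Nonempty (infHeight p A ≃+ infHeight p A') ∧
      Nonempty ((A ⧸ (infHeight p A).toAddSubgroup) ≃+ (A' ⧸ (infHeight p A').toAddSubgroup)) ∧
      IsSlender (AddMonoid.End A) A ∧ ¬ IsSlender (AddMonoid.End A') A' := by
  let D : Type := AddCircle (1 : ℚ)
  have hp0 : (p : ℤ) ≠ 0 := by exact_mod_cast hp.out.ne_zero
  have hdiv : ∀ (m : ℕ) (z : D), ∃ w, p ^ m • w = z := by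
    intro m z
    refine ⟨DivisibleBy.div z ((p : ℤ) ^ m), ?_⟩
    have := DivisibleBy.div_cancel (A := D) (α := ℤ) z (pow_ne_zero m hp0)
    rw [← natCast_zsmul]
    push_cast
    exact this
  have hfin : {d : D | p • d = 0}.Finite := AddCircle.finite_torsion _ hp.out.pos
  have : Fact ((0 : ℚ) < 1) := ⟨one_pos⟩
  obtain ⟨s, hs0, hs⟩ : ∃ s : D, s ≠ 0 ∧ p • s = 0 := by
    have h1 := AddCircle.addOrderOf_period_div (p := (1 : ℚ)) hp.out.pos
    refine ⟨((1 / p : ℚ) : AddCircle (1 : ℚ)), ?_, ?_⟩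
    · intro h
      rw [h, addOrderOf_zero] at h1
      exact hp.out.one_lt.ne h1
    · have := addOrderOf_nsmul_eq_zero ((1 / p : ℚ) : AddCircle (1 : ℚ))
      rwa [h1] at this
  have : Countable D := Function.Surjective.countable
    (QuotientAddGroup.mk_surjective (s := AddSubgroup.zmultiples (1 : ℚ)))
  obtain ⟨χ, hχ1, hχ2, hχ3⟩ := exists_chi (p := p) hfin
  have h : IsChi p χ := ⟨hχ1, hχ2, hχ3⟩
  exact ⟨GA h, GB h, inferInstance, inferInstance, assemble h hdiv hfin s hs0 hs⟩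

end Pool.Agent.Lib_MP_fa2e48_si
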